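import Pool.Agent.H85R3.RMFinal
import Pool.Agent.H85R3.RMBig

/-! Closed Riemannian 3-manifolds of fixed volume with `Ric ≥ -g` and with an eigenvalue of fixed
index of arbitrarily large multiplicity. -/

set_option autoImplicit false

open MeasureTheory

namespace Pool.Agent.Results.MP_416086_gt.CollapsedCovers

open Pool.Agent.H85R3.RM

/-- For every volume `V > 0` there is an index `k ≥ 1`, bounded by a universal constant, such that
the multiplicity `m_k` is unbounded on the closed Riemannian manifolds of dimension `3` with volume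
`V` and with `Ric ≥ -(3 - 1) κ g`, `κ = 1 / 2`. -/
theorem result : ∃ k₀ : ℕ, ∀ V : ℝ, 0 < V → ∃ k : ℕ, 1 ≤ k ∧ k ≤ k₀ ∧ ∀ m : ℕ,
    ∃ M : ClosedManifold 3, RicciGE M (-((3 - 1) * (1 / 2))) ∧ vol M = V ∧
      (m : ℕ∞) ≤ eigenMultiplicity M k := by
  obtain ⟨k₀, H⟩ := exists_setup
  refine ⟨k₀, fun V hV => ?_⟩
  -- the property of `k` and `m`
  have key : ∀ m : ℕ, ∃ k, 1 ≤ k ∧ k ≤ k₀ ∧ ∃ M : ClosedManifold 3,
      RicciGE M (-((3 - 1) * (1 / 2))) ∧ vol M = V ∧ (m : ℕ∞) ≤ eigenMultiplicity M k := by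
    intro m
    obtain ⟨A, hA, k, hk1, hk2, hk3⟩ := H V hV m
    refine ⟨k, hk1, hk2, A.man, A.ricci_man, by rw [vol_man, hA], ?_⟩
    unfold eigenMultiplicity
    simp only [eigenvalue_man]
    exact hk3
  by_contra hcon
  push Not at hcon
  -- a bound for every `k`
  have hb : ∀ k : ℕ, ∃ m : ℕ, 1 ≤ k → k ≤ k₀ → ∀ M : ClosedManifold 3,
      RicciGE M (-((3 - 1) * (1 / 2))) → vol M = V → eigenMultiplicity M k < m := by
    intro k
    by_cases hk : 1 ≤ k ∧ k ≤ k₀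
    · obtain ⟨m, hm⟩ := hcon k hk.1 hk.2
      exact ⟨m, fun _ _ M h1 h2 => hm M h1 h2⟩
    · exact ⟨0, fun h1 h2 => absurd ⟨h1, h2⟩ hk⟩
  choose b hb using hb
  obtain ⟨k, hk1, hk2, M, hM1, hM2, hM3⟩ := key ((Finset.range (k₀ + 1)).sup b)
  have h1 := hb k hk1 hk2 M hM1 hM2
  have h2 : b k ≤ (Finset.range (k₀ + 1)).sup b :=
    Finset.le_sup (Finset.mem_range.mpr (by omega))
  have h3 : ((b k : ℕ) : ℕ∞) ≤ (((Finset.range (k₀ + 1)).sup b : ℕ) : ℕ∞) := by exact_mod_cast h2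
  exact absurd (h3.trans hM3) (not_le.mpr h1)

end Pool.Agent.Results.MP_416086_gt.CollapsedCovers
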